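import Pool.Agent.Lib.MP_d16eef_co.P.All

/-! An integer `n > 5` is admissible if and only if `n ≠ 6`. -/

namespace Pool.Agent.Results.MP_d16eef_co.Classification

open RunMult

theorem result : ∀ n : ℕ, 5 < n → (Adm n ↔ n ≠ 6) :=
  fun n h5 => adm_iff_all n h5

end Pool.Agent.Results.MP_d16eef_co.Classification
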